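import Pool.Agent.Q276.HL.Stm2
import Pool.Agent.W348.HZ.CCU

/-!
# HL, job LCT: count of the quartic forms with a point, small `V`
-/

set_option autoImplicit false

namespace Pool.Agent.Q54.HL

open Pool.Agent.W348.HZ Pool.Agent.Q276.HL

/-- Two integers which are congruent modulo `q` and have the same quotient by `|q|` are equal. -/
theorem eq_of_ediv {q x y : ℤ} (h : x / |q| = y / |q|) (hd : q ∣ x - y) : x = y := by
  have h1 : |q| ∣ x - y := (abs_dvd q _).2 hd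
  have h2 : y % |q| = x % |q| := Int.modEq_iff_dvd.2 h1
  have h3 := Int.mul_ediv_add_emod x |q|
  have h4 := Int.mul_ediv_add_emod y |q|
  rw [← h3, ← h4, h, h2]

theorem inj5 {p q a b c d e a' b' c' d' e' : ℤ} (hq : q ≠ 0)
    (h : qv a b c d e p q = 1) (h' : qv a' b' c' d' e' p q = 1)
    (h1 : a / |q| = a' / |q|) (h2 : 4 * b / |q| = 4 * b' / |q|)
    (h3 : 6 * c / |q| = 6 * c' / |q|) (h4 : 4 * d / |q| = 4 * d' / |q|) :
    a = a' ∧ b = b' ∧ c = c' ∧ d = d' ∧ e = e' := by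
  unfold qv at h h'
  have hco : IsCoprime q p :=
    ⟨4 * b * p ^ 3 + 6 * c * p ^ 2 * q + 4 * d * p * q ^ 2 + e * q ^ 3, a * p ^ 3,
      by linear_combination h⟩
  have ha : a = a' := by
    apply eq_of_ediv h1
    have h5 : q ∣ (a - a') * p ^ 4 :=
      ⟨-(4 * (b - b') * p ^ 3 + 6 * (c - c') * p ^ 2 * q + 4 * (d - d') * p * q ^ 2 +
        (e - e') * q ^ 3), by linear_combination h - h'⟩
    exact (hco.pow_right (n := 4)).dvd_of_dvd_mul_right h5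
  subst ha
  have e1 : 4 * (b - b') * p ^ 3 + 6 * (c - c') * p ^ 2 * q + 4 * (d - d') * p * q ^ 2 +
      (e - e') * q ^ 3 = 0 := by
    apply mul_left_cancel₀ hq
    linear_combination h - h'
  have hb : b = b' := by
    have h5 : 4 * b = 4 * b' := by
      apply eq_of_ediv h2
      have h5 : q ∣ (4 * b - 4 * b') * p ^ 3 :=
        ⟨-(6 * (c - c') * p ^ 2 + 4 * (d - d') * p * q + (e - e') * q ^ 2),
          by linear_combination e1⟩
      exact (hco.pow_right (n := 3)).dvd_of_dvd_mul_right h5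
    omega
  subst hb
  have e2 : 6 * (c - c') * p ^ 2 + 4 * (d - d') * p * q + (e - e') * q ^ 2 = 0 := by
    apply mul_left_cancel₀ hq
    linear_combination e1
  have hc : c = c' := by
    have h5 : 6 * c = 6 * c' := by
      apply eq_of_ediv h3
      have h5 : q ∣ (6 * c - 6 * c') * p ^ 2 :=
        ⟨-(4 * (d - d') * p + (e - e') * q), by linear_combination e2⟩
      exact (hco.pow_right (n := 2)).dvd_of_dvd_mul_right h5
    omega
  subst hc
  have e3 : 4 * (d - d') * p + (e - e') * q = 0 := by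
    apply mul_left_cancel₀ hq
    linear_combination e2
  have hd : d = d' := by
    have h5 : 4 * d = 4 * d' := by
      apply eq_of_ediv h4
      have h5 : q ∣ (4 * d - 4 * d') * p :=
        ⟨-(e - e'), by linear_combination e3⟩
      exact hco.dvd_of_dvd_mul_right h5
    omega
  subst hd
  have e4 : e - e' = 0 := by
    apply mul_left_cancel₀ hq
    linear_combination e3
  exact ⟨rfl, rfl, rfl, rfl, by omega⟩

/-- The quotients are in a box. -/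
theorem mem_q {q n : ℤ} {B : ℝ} (hq : q ≠ 0) (h : |(n : ℝ)| + |(q : ℝ)| ≤ B * |(q : ℝ)|) :
    n / |q| ∈ bx B := by
  apply mem_bx
  have hq0 : 0 < |q| := abs_pos.2 hq
  have hq1 : (0 : ℝ) < |(q : ℝ)| := by
    rw [← Int.cast_abs]
    exact_mod_cast hq0
  have h1 : n / |q| * |q| ≤ n := Int.ediv_mul_le n hq0.ne'
  have h2 : n < (n / |q| + 1) * |q| := Int.lt_ediv_add_one_mul_self n hq0
  have h1' : ((n / |q| : ℤ) : ℝ) * |(q : ℝ)| ≤ n := by
    rw [← Int.cast_abs]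
    exact_mod_cast h1
  have h2' : (n : ℝ) < (((n / |q| : ℤ) : ℝ) + 1) * |(q : ℝ)| := by
    rw [← Int.cast_abs]
    exact_mod_cast h2
  have h3 := abs_le.1 (le_refl |(n : ℝ)|)
  rw [abs_le]
  constructor
  · by_contra h4
    push Not at h4
    nlinarith [h3.1]
  · by_contra h4
    push Not at h4
    nlinarith [h3.2]

/-- The common box of the codes. -/
noncomputable def box (K R T V : ℝ) : Finset (ℤ × ℤ × ℤ × ℤ × ℤ × ℤ) :=
  (bx (3000 * (T * V))) ×ˢ (bx (3000 * (V / T))) ×ˢ (bx (K * (R / V))) ×ˢ (bx (K * (R / V))) ×ˢ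
    (bx (K * (R / V * T))) ×ˢ (bx (K * (R / V * T ^ 3)))

theorem mul6 {n1 n2 n3 n4 n5 b1 b2 b3 b4 b5 : ℝ} (z1 : 0 ≤ n1) (z2 : 0 ≤ n2) (z3 : 0 ≤ n3)
    (z4 : 0 ≤ n4) (z5 : 0 ≤ n5) (h1 : n1 ≤ b1) (h2 : n2 ≤ b2) (h3 : n3 ≤ b3) (h4 : n4 ≤ b4)
    (h5 : n5 ≤ b5) :
    n1 * (n2 * (n3 * (n3 * (n4 * n5)))) ≤ b1 * (b2 * (b3 * (b3 * (b4 * b5)))) := by
  have y3 : 0 ≤ b3 := z3.trans h3
  have e1 : n4 * n5 ≤ b4 * b5 := mul_le_mul h4 h5 z5 (z4.trans h4)
  have p1 : 0 ≤ n4 * n5 := mul_nonneg z4 z5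
  have e2 : n3 * (n4 * n5) ≤ b3 * (b4 * b5) := mul_le_mul h3 e1 p1 y3
  have p2 : 0 ≤ n3 * (n4 * n5) := mul_nonneg z3 p1
  have e3 := mul_le_mul h3 e2 p2 y3
  have p3 : 0 ≤ n3 * (n3 * (n4 * n5)) := mul_nonneg z3 p2
  have e4 := mul_le_mul h2 e3 p3 (z2.trans h2)
  exact mul_le_mul h1 e4 (mul_nonneg z2 p3) (z1.trans h1)

theorem card_box {M K R T V : ℝ} (hM : 1 ≤ M) (hK : K = 10 ^ 9 * M) (hR : 1 ≤ R)
    (hT : 1 / 2 ≤ T) (hTR : T ≤ M * R ^ ((1 : ℝ) / 3)) (hV : R ^ ((2 : ℝ) / 3) ≤ V)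
    (hVR : V ≤ M * R) :
    ((box K R T V).card : ℝ) ≤ 6002 * (6001 * M) * 81 * K ^ 4 * M ^ 4 * R ^ 4 := by
  have hT0 : 0 < T := by linarith
  have hR0 : 0 < R := by linarith
  have hr : 1 ≤ R ^ ((2 : ℝ) / 3) := Real.one_le_rpow hR (by norm_num)
  have hV1 : 1 ≤ V := hr.trans hV
  have hV0 : 0 < V := by linarith
  have hM0 : 0 < M := by linarith
  have hK0 : 0 < K := by rw [hK]; positivity
  set x : ℝ := R / V with hx
  have hx0 : 0 < x := by positivity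
  have hMx : 1 ≤ M * x := by
    rw [hx, ← mul_div_assoc, le_div_iff₀ hV0]
    linarith
  have hMK : 8 * M ≤ K := by rw [hK]; nlinarith
  have hT3 : 1 / 8 ≤ T ^ 3 := by
    have : (1 / 2 : ℝ) ^ 3 ≤ T ^ 3 := pow_le_pow_left₀ (by norm_num) hT 3
    norm_num at this
    linarith
  have hxK : 1 ≤ K * x := by nlinarith
  have hxT : 1 ≤ K * (x * T) := by
    have : M * x * (1 / 2) ≤ M * x * T := by gcongr
    nlinarith [mul_pos hx0 hT0]
  have hxT3 : 1 ≤ K * (x * T ^ 3) := by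
    have : M * x * (1 / 8) ≤ M * x * T ^ 3 := by gcongr
    nlinarith [mul_pos hx0 (pow_pos hT0 3)]
  have hTV : T ≤ M * V := by
    refine hTR.trans ?_
    have : R ^ ((1 : ℝ) / 3) ≤ R ^ ((2 : ℝ) / 3) :=
      Real.rpow_le_rpow_of_exponent_le hR (by norm_num)
    gcongr
    exact this.trans hV
  have hMv : 1 ≤ M * (V / T) := by
    rw [← mul_div_assoc, le_div_iff₀ hT0]
    linarith
  have c1 : ((bx (3000 * (T * V))).card : ℝ) ≤ 6002 * (T * V) := by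
    refine (card_bx (by positivity)).trans ?_
    nlinarith
  have c2 : ((bx (3000 * (V / T))).card : ℝ) ≤ (6001 * M) * (V / T) := by
    refine (card_bx (by positivity)).trans ?_
    have : 0 < V / T := by positivity
    nlinarith
  have c3 : ((bx (K * x)).card : ℝ) ≤ 3 * (K * x) := by
    refine (card_bx (by positivity)).trans ?_
    linarith
  have c4 : ((bx (K * (x * T))).card : ℝ) ≤ 3 * (K * (x * T)) := by
    refine (card_bx (by positivity)).trans ?_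
    linarith
  have c5 : ((bx (K * (x * T ^ 3))).card : ℝ) ≤ 3 * (K * (x * T ^ 3)) := by
    refine (card_bx (by positivity)).trans ?_
    linarith
  have hcard : ((box K R T V).card : ℝ) = ((bx (3000 * (T * V))).card : ℝ) *
      (((bx (3000 * (V / T))).card : ℝ) * (((bx (K * x)).card : ℝ) * (((bx (K * x)).card : ℝ) *
        (((bx (K * (x * T))).card : ℝ) * ((bx (K * (x * T ^ 3))).card : ℝ))))) := by
    rw [box, Finset.card_product, Finset.card_product, Finset.card_product, Finset.card_product,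
      Finset.card_product]
    push_cast
    rfl
  have hT4 : T ^ 4 ≤ M ^ 4 * V ^ 2 := by
    have h1 : (R ^ ((1 : ℝ) / 3)) ^ 4 = (R ^ ((2 : ℝ) / 3)) ^ 2 := by
      rw [← Real.rpow_natCast, ← Real.rpow_natCast, ← Real.rpow_mul hR0.le,
        ← Real.rpow_mul hR0.le]
      norm_num
    calc T ^ 4 ≤ (M * R ^ ((1 : ℝ) / 3)) ^ 4 := pow_le_pow_left₀ hT0.le hTR 4
      _ = M ^ 4 * (R ^ ((2 : ℝ) / 3)) ^ 2 := by rw [mul_pow, h1]
      _ ≤ M ^ 4 * V ^ 2 := by gcongr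
  have hRV : R = x * V := by
    rw [hx]
    field_simp
  calc ((box K R T V).card : ℝ)
      ≤ 6002 * (T * V) * ((6001 * M) * (V / T) * (3 * (K * x) * (3 * (K * x) *
        (3 * (K * (x * T)) * (3 * (K * (x * T ^ 3))))))) := by
        rw [hcard]
        exact mul6 (Nat.cast_nonneg _) (Nat.cast_nonneg _) (Nat.cast_nonneg _)
          (Nat.cast_nonneg _) (Nat.cast_nonneg _) c1 c2 c3 c4 c5
    _ = 6002 * (6001 * M) * 81 * K ^ 4 * (x ^ 4 * V ^ 2) * T ^ 4 := by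
        have hv : T * (V / T) = V := by
          rw [mul_comm]
          exact div_mul_cancel₀ V hT0.ne'
        generalize V / T = w at hv
        linear_combination (6002 * (6001 * M) * 81 * K ^ 4 * x ^ 4 * T ^ 4 * V) * hv
    _ ≤ 6002 * (6001 * M) * 81 * K ^ 4 * (x ^ 4 * V ^ 2) * (M ^ 4 * V ^ 2) := by
        gcongr
    _ = 6002 * (6001 * M) * 81 * K ^ 4 * M ^ 4 * R ^ 4 := by
        rw [hRV]
        ring

/-- The septuples of the second chart. -/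
def S2 (R T V : ℝ) : Set (ℤ × ℤ × ℤ × ℤ × ℤ × ℤ × ℤ) :=
  {v | Good4 3000 R T V v.1 v.2.1 v.2.2.1 v.2.2.2.1 v.2.2.2.2.1 v.2.2.2.2.2.1 v.2.2.2.2.2.2 ∧
    Ch2 3000 R T V v.1 v.2.1 v.2.2.1 v.2.2.2.1 v.2.2.2.2.2.1 v.2.2.2.2.2.2}

/-- The septuples of the first chart. -/
def S1 (R T V : ℝ) : Set (ℤ × ℤ × ℤ × ℤ × ℤ × ℤ × ℤ) :=
  {v | Good4 3000 R T V v.1 v.2.1 v.2.2.1 v.2.2.2.1 v.2.2.2.2.1 v.2.2.2.2.2.1 v.2.2.2.2.2.2 ∧
    Ch1 3000 R T V v.2.1 v.2.2.1 v.2.2.2.1 v.2.2.2.2.1 v.2.2.2.2.2.1 v.2.2.2.2.2.2}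

/-- The code in the second chart. -/
def f2 (v : ℤ × ℤ × ℤ × ℤ × ℤ × ℤ × ℤ) : ℤ × ℤ × ℤ × ℤ × ℤ × ℤ :=
  (v.2.2.2.2.2.1, v.2.2.2.2.2.2, v.1 / |v.2.2.2.2.2.2|, 4 * v.2.1 / |v.2.2.2.2.2.2|,
    6 * v.2.2.1 / |v.2.2.2.2.2.2|, 4 * v.2.2.2.1 / |v.2.2.2.2.2.2|)

/-- The code in the first chart. -/
def f1 (v : ℤ × ℤ × ℤ × ℤ × ℤ × ℤ × ℤ) : ℤ × ℤ × ℤ × ℤ × ℤ × ℤ :=
  (v.2.2.2.2.2.1, v.2.2.2.2.2.2, 6 * v.2.2.1 / |v.2.2.2.2.2.1|, 4 * v.2.1 / |v.2.2.2.2.2.1|,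
    4 * v.2.2.2.1 / |v.2.2.2.2.2.1|, v.2.2.2.2.1 / |v.2.2.2.2.2.1|)

theorem q_ne {R T V : ℝ} {a b c d p q : ℤ} (hV : 0 < V) (h : Ch2 3000 R T V a b c d p q) :
    q ≠ 0 := by
  rintro rfl
  have := h.1
  simp at this
  linarith

theorem p_ne {R T V : ℝ} {b c d e p q : ℤ} (hT : 0 < T) (hV : 0 < V)
    (h : Ch1 3000 R T V b c d e p q) : p ≠ 0 := by
  rintro rfl
  have := h.1
  have h2 := mul_pos hT hV
  simp at this
  linarith

theorem inj2 {R T V : ℝ} (hV : 0 < V) : Set.InjOn f2 (S2 R T V) := by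
  rintro ⟨a, b, c, d, e, p, q⟩ ⟨hv, hv'⟩ ⟨a', b', c', d', e', p', q'⟩ ⟨hw, hw'⟩ h
  simp only [f2, Prod.mk.injEq] at h
  obtain ⟨rfl, rfl, h1, h2, h3, h4⟩ := h
  have hq : q ≠ 0 := q_ne hV hv'
  obtain ⟨rfl, rfl, rfl, rfl, rfl⟩ := inj5 hq hv.heq hw.heq h1 h2 h3 h4
  rfl

theorem inj1 {R T V : ℝ} (hT : 0 < T) (hV : 0 < V) : Set.InjOn f1 (S1 R T V) := by
  rintro ⟨a, b, c, d, e, p, q⟩ ⟨hv, hv'⟩ ⟨a', b', c', d', e', p', q'⟩ ⟨hw, hw'⟩ h
  simp only [f1, Prod.mk.injEq] at h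
  obtain ⟨rfl, rfl, h3, h4, h2, h1⟩ := h
  have hp : p ≠ 0 := p_ne hT hV hv'
  have hv1 : qv e d c b a q p = 1 := by
    have := hv.heq
    unfold qv at this ⊢
    linear_combination this
  have hw1 : qv e' d' c' b' a' q p = 1 := by
    have := hw.heq
    unfold qv at this ⊢
    linear_combination this
  obtain ⟨rfl, rfl, rfl, rfl, rfl⟩ := inj5 hp hv1 hw1 h1 h2 h3 h4
  rfl

theorem fin_aux {M K g y n : ℝ} (hM : 1 ≤ M) (hK : K = 10 ^ 9 * M) (hy : 0 ≤ y)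
    (h1 : g ≤ 8 * (M * y)) (h2 : n ≤ 300000000 * y) : n + g ≤ K * y := by
  rw [hK]
  nlinarith

theorem maps2 {M K R T V : ℝ} (hM : 1 ≤ M) (hK : K = 10 ^ 9 * M) (hR : 0 < R)
    (hT : 1 / 2 ≤ T) (hV : 0 < V) (hVR : V ≤ M * R) :
    Set.MapsTo f2 (S2 R T V) (box K R T V : Set (ℤ × ℤ × ℤ × ℤ × ℤ × ℤ)) := by
  rintro ⟨a, b, c, d, e, p, q⟩ ⟨⟨ha, hb, hc, hd, he, hp, hq, -⟩, hch⟩
  simp only at ha hb hc hd he hp hq hch
  have hq0 : q ≠ 0 := q_ne hV hch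
  have hQ := hch.1
  have hT0 : 0 < T := by linarith
  set x : ℝ := R / V with hx
  have hx0 : 0 < x := by positivity
  have hRV : R = x * V := by
    rw [hx]
    field_simp
  have hMx : 1 ≤ M * x := by
    rw [hx, ← mul_div_assoc, le_div_iff₀ hV]
    linarith
  set g : ℝ := |(q : ℝ)| with hg
  have hg0 : 0 ≤ g := abs_nonneg _
  have hT3 : 1 / 8 ≤ T ^ 3 := by
    have : (1 / 2 : ℝ) ^ 3 ≤ T ^ 3 := pow_le_pow_left₀ (by norm_num) hT 3
    norm_num at this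
    linarith
  have hxg : 0 ≤ x * g := by positivity
  have g1 : g ≤ M * (x * g) := by nlinarith
  have hR1 : R ≤ 3000 * (x * g * T) := by
    calc R = x * V := hRV
      _ ≤ x * (3000 * (g * T)) := by gcongr
      _ = 3000 * (x * g * T) := by ring
  have hMxg : 0 ≤ M * (x * g) := by positivity
  simp only [f2, box, Finset.coe_product, Set.mem_prod, Finset.mem_coe]
  refine ⟨mem_bx (by linarith), mem_bx ?_, mem_q hq0 ?_, mem_q hq0 ?_, mem_q hq0 ?_,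
    mem_q hq0 ?_⟩
  · rw [← mul_div_assoc, le_div_iff₀ hT0]
    exact hq
  · rw [mul_assoc]
    refine fin_aux hM hK hxg (by linarith) ?_
    have h1 : |(a : ℝ)| * T ^ 3 * T ≤ 9000000 * (x * g) * T := by nlinarith
    have h2 := le_of_mul_le_mul_right h1 hT0
    have h3 : |(a : ℝ)| * (1 / 8) ≤ |(a : ℝ)| * T ^ 3 := by gcongr
    linarith
  · rw [mul_assoc]
    refine fin_aux hM hK hxg (by linarith) ?_
    have h1 : |(b : ℝ)| * T * T ≤ 9000000 * (x * g) * T := by nlinarith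
    have h2 := le_of_mul_le_mul_right h1 hT0
    have h3 : |(b : ℝ)| * (1 / 2) ≤ |(b : ℝ)| * T := by gcongr
    push_cast
    rw [abs_mul]
    norm_num
    linarith
  · rw [mul_assoc]
    refine fin_aux (y := x * T * g) hM hK (by positivity) ?_ ?_
    · have : M * (x * g) * (1 / 2) ≤ M * (x * g) * T := by gcongr
      nlinarith
    · push_cast
      rw [abs_mul]
      norm_num
      nlinarith
  · rw [mul_assoc]
    refine fin_aux (y := x * T ^ 3 * g) hM hK (by positivity) ?_ ?_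
    · have : M * (x * g) * (1 / 8) ≤ M * (x * g) * T ^ 3 := by gcongr
      nlinarith
    · push_cast
      rw [abs_mul]
      norm_num
      have h1 : R * T ^ 2 ≤ 3000 * (x * g * T) * T ^ 2 := by gcongr
      nlinarith [pow_pos hT0 3]

theorem maps1 {M K R T V : ℝ} (hM : 1 ≤ M) (hK : K = 10 ^ 9 * M) (hR : 0 < R)
    (hT : 1 / 2 ≤ T) (hV : 0 < V) (hVR : V ≤ M * R) :
    Set.MapsTo f1 (S1 R T V) (box K R T V : Set (ℤ × ℤ × ℤ × ℤ × ℤ × ℤ)) := by
  rintro ⟨a, b, c, d, e, p, q⟩ ⟨⟨ha, hb, hc, hd, he, hp, hq, -⟩, hch⟩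
  simp only at ha hb hc hd he hp hq hch
  have hT0 : 0 < T := by linarith
  have hp0 : p ≠ 0 := p_ne hT0 hV hch
  have hQ := hch.1
  set x : ℝ := R / V with hx
  have hx0 : 0 < x := by positivity
  have hRV : R = x * V := by
    rw [hx]
    field_simp
  have hMx : 1 ≤ M * x := by
    rw [hx, ← mul_div_assoc, le_div_iff₀ hV]
    linarith
  set g : ℝ := |(p : ℝ)| with hg
  have hg0 : 0 ≤ g := abs_nonneg _
  have hT3 : 1 / 8 ≤ T ^ 3 := by
    have : (1 / 2 : ℝ) ^ 3 ≤ T ^ 3 := pow_le_pow_left₀ (by norm_num) hT 3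
    norm_num at this
    linarith
  have hxg : 0 ≤ x * g := by positivity
  have g1 : g ≤ M * (x * g) := by nlinarith
  have hR1 : R * T ≤ 3000 * (x * g) := by
    calc R * T = x * (T * V) := by rw [hRV]; ring
      _ ≤ x * (3000 * g) := by gcongr
      _ = 3000 * (x * g) := by ring
  have hMxg : 0 ≤ M * (x * g) := by positivity
  simp only [f1, box, Finset.coe_product, Set.mem_prod, Finset.mem_coe]
  refine ⟨mem_bx (by linarith), mem_bx ?_, mem_q hp0 ?_, mem_q hp0 ?_, mem_q hp0 ?_,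
    mem_q hp0 ?_⟩
  · rw [← mul_div_assoc, le_div_iff₀ hT0]
    exact hq
  · rw [mul_assoc]
    refine fin_aux hM hK hxg (by linarith) ?_
    have h1 : |(c : ℝ)| * T ≤ 3000 * R * T := by gcongr
    have h3 : |(c : ℝ)| * (1 / 2) ≤ |(c : ℝ)| * T := by gcongr
    push_cast
    rw [abs_mul]
    norm_num
    linarith
  · rw [mul_assoc]
    refine fin_aux hM hK hxg (by linarith) ?_
    have h1 : |(b : ℝ)| * T ^ 2 * T ≤ 3000 * R * T := by gcongr
    have h3 : |(b : ℝ)| * (1 / 8) ≤ |(b : ℝ)| * T ^ 3 := by gcongr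
    push_cast
    rw [abs_mul]
    norm_num
    nlinarith
  · rw [mul_assoc]
    refine fin_aux (y := x * T * g) hM hK (by positivity) ?_ ?_
    · have : M * (x * g) * (1 / 2) ≤ M * (x * g) * T := by gcongr
      nlinarith
    · push_cast
      rw [abs_mul]
      norm_num
      have h1 : R * T * T ≤ 3000 * (x * g) * T := by gcongr
      nlinarith
  · rw [mul_assoc]
    refine fin_aux (y := x * T ^ 3 * g) hM hK (by positivity) ?_ ?_
    · have : M * (x * g) * (1 / 8) ≤ M * (x * g) * T ^ 3 := by gcongr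
      nlinarith
    · have h1 : R * T * T ^ 3 ≤ 3000 * (x * g) * T ^ 3 := by gcongr
      nlinarith [pow_pos hT0 3]

theorem lct : StmtLCT := by
  intro M hM
  obtain ⟨K, hK⟩ : ∃ K : ℝ, K = 10 ^ 9 * M := ⟨_, rfl⟩
  have hK1 : 1 ≤ K := by rw [hK]; nlinarith
  refine ⟨2 * (6002 * (6001 * M) * 81 * K ^ 4 * M ^ 4), ?_, ?_⟩
  · have h1 : 1 ≤ K ^ 4 := one_le_pow₀ hK1
    have h2 : 1 ≤ M ^ 4 := one_le_pow₀ hM
    have h3 : 1 ≤ K ^ 4 * M ^ 4 := one_le_mul_of_one_le_of_one_le h1 h2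
    nlinarith
  intro R T V hR hT hTR hV hVR
  have hT0 : 0 < T := by linarith
  have hR0 : 0 < R := by linarith
  have hr : 1 ≤ R ^ ((2 : ℝ) / 3) := Real.one_le_rpow hR (by norm_num)
  have hV0 : 0 < V := by linarith
  have hb := card_box hM hK hR hT hTR hV hVR
  have m2 := maps2 (T := T) hM hK hR0 hT hV0 hVR
  have m1 := maps1 (T := T) hM hK hR0 hT hV0 hVR
  have i2 : Set.InjOn f2 (S2 R T V) := inj2 hV0
  have i1 : Set.InjOn f1 (S1 R T V) := inj1 hT0 hV0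
  have fin2 : (S2 R T V).Finite := Set.Finite.of_injOn m2 i2 (Finset.finite_toSet _)
  have fin1 : (S1 R T V).Finite := Set.Finite.of_injOn m1 i1 (Finset.finite_toSet _)
  have n2 : (S2 R T V).ncard ≤ (box K R T V).card := by
    have := Set.ncard_le_ncard_of_injOn f2 (fun a ha => m2 ha) i2 (Finset.finite_toSet _)
    rwa [Set.ncard_coe_finset] at this
  have n1 : (S1 R T V).ncard ≤ (box K R T V).card := by
    have := Set.ncard_le_ncard_of_injOn f1 (fun a ha => m1 ha) i1 (Finset.finite_toSet _)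
    rwa [Set.ncard_coe_finset] at this
  let f : ℤ × ℤ × ℤ × ℤ × ℤ × ℤ × ℤ → ℤ × ℤ := fun v =>
    (-(iI v.1 v.2.1 v.2.2.1 v.2.2.2.1 v.2.2.2.2.1) / 4,
      -(iJ v.1 v.2.1 v.2.2.1 v.2.2.2.1 v.2.2.2.2.1) / 4)
  have hsub : (pairs fun a b c d e => ∃ p q : ℤ, Good4 3000 R T V a b c d e p q ∧
      (Ch2 3000 R T V a b c d p q ∨ Ch1 3000 R T V b c d e p q)) ⊆
      f '' (S2 R T V ∪ S1 R T V) := by
    rintro ⟨X1, X2⟩ ⟨a, b, c, d, e, ⟨p, q, hg, hch⟩, hI, hJ⟩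
    refine ⟨(a, b, c, d, e, p, q), ?_, ?_⟩
    · rcases hch with hch | hch
      · exact Or.inl ⟨hg, hch⟩
      · exact Or.inr ⟨hg, hch⟩
    · change (-(iI a b c d e) / 4, -(iJ a b c d e) / 4) = (X1, X2)
      rw [hI, hJ]
      simp
  have hfin : (f '' (S2 R T V ∪ S1 R T V)).Finite := (fin2.union fin1).image f
  refine ⟨hfin.subset hsub, ?_⟩
  have h1 := Set.ncard_le_ncard hsub hfin
  have h2 : (f '' (S2 R T V ∪ S1 R T V)).ncard ≤ (S2 R T V ∪ S1 R T V).ncard :=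
    Set.ncard_image_le (fin2.union fin1)
  have h3 : (S2 R T V ∪ S1 R T V).ncard ≤ (S2 R T V).ncard + (S1 R T V).ncard :=
    Set.ncard_union_le _ _
  have h4 : (pairs fun a b c d e => ∃ p q : ℤ, Good4 3000 R T V a b c d e p q ∧
      (Ch2 3000 R T V a b c d p q ∨ Ch1 3000 R T V b c d e p q)).ncard ≤
      2 * (box K R T V).card := by omega
  calc (((pairs fun a b c d e => ∃ p q : ℤ, Good4 3000 R T V a b c d e p q ∧
      (Ch2 3000 R T V a b c d p q ∨ Ch1 3000 R T V b c d e p q)).ncard : ℕ) : ℝ)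
      ≤ ((2 * (box K R T V).card : ℕ) : ℝ) := by exact_mod_cast h4
    _ = 2 * ((box K R T V).card : ℝ) := by push_cast; ring
    _ ≤ 2 * (6002 * (6001 * M) * 81 * K ^ 4 * M ^ 4 * R ^ 4) := by gcongr
    _ = 2 * (6002 * (6001 * M) * 81 * K ^ 4 * M ^ 4) * R ^ 4 := by ring

end Pool.Agent.Q54.HL
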